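import Mathlib

set_option autoImplicit false

open scoped NNReal

namespace Pool.Agent.Lead.ExtremalPairs

/-- The kernels `P t` (`t` in the time monoid `T`, that is `ℕ` for discrete time and `ℝ≥0` for
continuous time) of a Markov chain on the finite set `Ω`: the semigroup property, stochastic
matrices, and continuity in `t` (which is automatic in discrete time). -/
def IsMarkovChain {T Ω : Type} [AddMonoid T] [TopologicalSpace T] [Fintype Ω] [DecidableEq Ω]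
    (P : T → Matrix Ω Ω ℝ) : Prop :=
  P 0 = 1 ∧ (∀ s t, P (s + t) = P s * P t) ∧ (∀ t x y, 0 ≤ P t x y) ∧
    (∀ t x, ∑ y, P t x y = 1) ∧ Continuous P

/-- Monotone chain: `P t (x, A) ≤ P t (y, A)` for `x ≤ y` and every increasing set `A`. -/
def IsMonotoneChain {T Ω : Type} [PartialOrder Ω] (P : T → Matrix Ω Ω ℝ) : Prop :=
  ∀ t x y, x ≤ y → ∀ A : Finset Ω, IsUpperSet (A : Set Ω) →
    ∑ z ∈ A, P t x z ≤ ∑ z ∈ A, P t y z

/-- Reversible chain: detailed balance for some probability `π`. -/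
def IsReversibleChain {T Ω : Type} [Fintype Ω] (P : T → Matrix Ω Ω ℝ) : Prop :=
  ∃ π : Ω → ℝ, (∀ x, 0 ≤ π x) ∧ ∑ x, π x = 1 ∧ ∀ t x y, π x * P t x y = π y * P t y x

/-- Total variation distance `max_A |μ(A) - ν(A)|`. -/
noncomputable def tv {Ω : Type} [Fintype Ω] (μ ν : Ω → ℝ) : ℝ :=
  ⨆ A : Finset Ω, |∑ z ∈ A, μ z - ∑ z ∈ A, ν z|

/-- The matrix with eigenvalues `1, X, X, Y, Z`. -/
noncomputable def M (X Y Z : ℝ) : Matrix (Fin 5) (Fin 5) ℝ :=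
  !![(1 - X) / 5 + X + (Y - X) / 8, (1 - X) / 5 - (Y - X) / 8, (1 - X) / 5 - (Y - X) / 8,
      (1 - X) / 5 - (Y - X) / 8, (1 - X) / 5 + (Y - X) / 4;
    (1 - X) / 5 - (Y - X) / 8, (1 - X) / 5 + X + (Y - X) / 8, (1 - X) / 5 + (Y - X) / 8,
      (1 - X) / 5 + (Y - X) / 8, (1 - X) / 5 - (Y - X) / 4;
    (1 - X) / 5 - (Y - X) / 8, (1 - X) / 5 + (Y - X) / 8,
      (1 - X) / 5 + X + (Y - X) / 8 + (Z - X) / 2,
      (1 - X) / 5 + (Y - X) / 8 - (Z - X) / 2, (1 - X) / 5 - (Y - X) / 4;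
    (1 - X) / 5 - (Y - X) / 8, (1 - X) / 5 + (Y - X) / 8,
      (1 - X) / 5 + (Y - X) / 8 - (Z - X) / 2,
      (1 - X) / 5 + X + (Y - X) / 8 + (Z - X) / 2, (1 - X) / 5 - (Y - X) / 4;
    (1 - X) / 5 + (Y - X) / 4, (1 - X) / 5 - (Y - X) / 4, (1 - X) / 5 - (Y - X) / 4,
      (1 - X) / 5 - (Y - X) / 4, (1 - X) / 5 + X + (Y - X) / 2]

theorem M_one : M 1 1 1 = 1 := by
  ext i j
  fin_cases i <;> fin_cases j <;> simp [M]

theorem M_mul (X Y Z X' Y' Z' : ℝ) : M X Y Z * M X' Y' Z' = M (X * X') (Y * Y') (Z * Z') := by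
  ext i j
  fin_cases i <;> fin_cases j <;> simp [M, Matrix.mul_apply, Fin.sum_univ_five] <;> ring

theorem M_row (X Y Z : ℝ) (i : Fin 5) : ∑ j, M X Y Z i j = 1 := by
  fin_cases i <;> simp [M, Fin.sum_univ_five] <;> ring

theorem M_symm (X Y Z : ℝ) (i j : Fin 5) : M X Y Z i j = M X Y Z j i := by
  fin_cases i <;> fin_cases j <;> simp [M]

theorem sum_mem (A : Finset (Fin 5)) (f : Fin 5 → ℝ) :
    ∑ z ∈ A, f z = (if (0 : Fin 5) ∈ A then f 0 else 0) + (if (1 : Fin 5) ∈ A then f 1 else 0) +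
      (if (2 : Fin 5) ∈ A then f 2 else 0) + (if (3 : Fin 5) ∈ A then f 3 else 0) +
      (if (4 : Fin 5) ∈ A then f 4 else 0) := by
  rw [← Fin.sum_univ_five (fun z => if z ∈ A then f z else 0)]
  simp [Finset.sum_ite_mem]

theorem M_monotone (X Y Z : ℝ) (hZ : 0 ≤ Z) (hZX : Z ≤ X) (hYX : Y ≤ X) (h3 : 0 ≤ X + 3 * Y)
    (h4 : 4 * Z ≤ X + 3 * Y) (A : Finset (Fin 5)) (hA : IsUpperSet (A : Set (Fin 5))) :
    Monotone (fun x : Fin 5 => ∑ z ∈ A, M X Y Z x z) := by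
  have h01 : (0 : Fin 5) ∈ A → (1 : Fin 5) ∈ A := fun h => hA (by decide : (0 : Fin 5) ≤ 1) h
  have h12 : (1 : Fin 5) ∈ A → (2 : Fin 5) ∈ A := fun h => hA (by decide : (1 : Fin 5) ≤ 2) h
  have h23 : (2 : Fin 5) ∈ A → (3 : Fin 5) ∈ A := fun h => hA (by decide : (2 : Fin 5) ≤ 3) h
  have h34 : (3 : Fin 5) ∈ A → (4 : Fin 5) ∈ A := fun h => hA (by decide : (3 : Fin 5) ≤ 4) h
  have hX : 0 ≤ X := le_trans hZ hZX
  rw [Fin.monotone_iff_le_succ]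
  intro i
  simp only [sum_mem]
  by_cases m0 : (0 : Fin 5) ∈ A
  · have m1 := h01 m0
    have m2 := h12 m1
    have m3 := h23 m2
    have m4 := h34 m3
    fin_cases i <;> simp [M, m0, m1, m2, m3, m4] <;> linarith
  by_cases m1 : (1 : Fin 5) ∈ A
  · have m2 := h12 m1
    have m3 := h23 m2
    have m4 := h34 m3
    fin_cases i <;> simp [M, m0, m1, m2, m3, m4] <;> linarith
  by_cases m2 : (2 : Fin 5) ∈ A
  · have m3 := h23 m2
    have m4 := h34 m3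
    fin_cases i <;> simp [M, m0, m1, m2, m3, m4] <;> linarith
  by_cases m3 : (3 : Fin 5) ∈ A
  · have m4 := h34 m3
    fin_cases i <;> simp [M, m0, m1, m2, m3, m4] <;> linarith
  by_cases m4 : (4 : Fin 5) ∈ A
  · fin_cases i <;> simp [M, m0, m1, m2, m3, m4] <;> linarith
  · simp [m0, m1, m2, m3, m4]

theorem M_nonneg (X Y Z : ℝ) (hZ : 0 ≤ Z) (hZX : Z ≤ X) (hX1 : X ≤ 1) (hYX : Y ≤ X)
    (h3 : 0 ≤ X + 3 * Y) (h5 : 0 ≤ 4 - 9 * X + 5 * Y) (i j : Fin 5) : 0 ≤ M X Y Z i j := by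
  fin_cases i <;> fin_cases j <;> simp [M] <;> linarith

theorem M_pos (X Y Z : ℝ) (hX : 0 < X) (hZ : 0 ≤ Z) (hZX : Z ≤ X) (hYX : Y < X)
    (h3 : 0 ≤ X + 3 * Y) (h5 : 0 < 4 - 9 * X + 5 * Y) (i j : Fin 5) : 0 < M X Y Z i j := by
  fin_cases i <;> fin_cases j <;> simp [M] <;> linarith

theorem tv_top_bot (X Y Z : ℝ) (hX : 0 ≤ X) (hYX : Y ≤ X) (h3 : 0 ≤ X + 3 * Y) :
    tv (M X Y Z ⊤) (M X Y Z ⊥) ≤ (9 * X - Y) / 8 := by
  unfold tv
  apply ciSup_le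
  intro A
  have ht : (⊤ : Fin 5) = 4 := rfl
  have hb : (⊥ : Fin 5) = 0 := rfl
  rw [ht, hb, sum_mem, sum_mem, abs_le]
  by_cases m0 : (0 : Fin 5) ∈ A <;> by_cases m1 : (1 : Fin 5) ∈ A <;>
    by_cases m2 : (2 : Fin 5) ∈ A <;> by_cases m3 : (3 : Fin 5) ∈ A <;>
    by_cases m4 : (4 : Fin 5) ∈ A <;> simp [M, m0, m1, m2, m3, m4] <;>
    first | (constructor <;> linarith) | linarith

theorem tv_zero_one (X Y Z : ℝ) :
    (5 * X - Y) / 4 ≤ tv (M X Y Z 0) (M X Y Z 1) := by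
  have h := le_ciSup (f := fun A : Finset (Fin 5) =>
    |∑ z ∈ A, M X Y Z 0 z - ∑ z ∈ A, M X Y Z 1 z|) (Set.finite_range _).bddAbove {0, 2, 3}
  refine le_trans ?_ h
  refine le_trans ?_ (le_abs_self _)
  simp only [sum_mem]
  simp [M]
  linarith

/-- The chain in discrete time. -/
noncomputable def PD (n : ℕ) : Matrix (Fin 5) (Fin 5) ℝ := M ((3 / 8) ^ n) ((-1 / 8) ^ n) (0 ^ n)

/-- The chain in continuous time. -/
noncomputable def PC (t : ℝ≥0) : Matrix (Fin 5) (Fin 5) ℝ :=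
  M (Real.exp (-(10 * t))) (Real.exp (-(18 * t))) (Real.exp (-(16 * t)))

theorem PD_facts (n : ℕ) (hn : 1 ≤ n) :
    0 < ((3 : ℝ) / 8) ^ n ∧ (-1 / 8 : ℝ) ^ n < (3 / 8) ^ n ∧
      0 ≤ ((3 : ℝ) / 8) ^ n + 3 * (-1 / 8) ^ n ∧ ((3 : ℝ) / 8) ^ n ≤ 3 / 8 ∧
      0 ≤ 4 - 9 * ((3 : ℝ) / 8) ^ n + 5 * (-1 / 8) ^ n ∧ ((0 : ℝ) ^ n = 0) := by
  have hpos : 0 < ((3 : ℝ) / 8) ^ n := by positivity
  obtain ⟨m, rfl⟩ : ∃ m, n = m + 1 := ⟨n - 1, by omega⟩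
  have h1 : ((3 : ℝ) / 8) ^ m ≤ 1 := pow_le_one₀ (by norm_num) (by norm_num)
  have habs : |(-1 / 8 : ℝ) ^ m| ≤ (3 / 8) ^ m := by
    rw [abs_pow]
    apply pow_le_pow_left₀ (abs_nonneg _)
    rw [abs_le']
    constructor <;> norm_num
  rw [abs_le] at habs
  have hm : 0 < ((3 : ℝ) / 8) ^ m := by positivity
  refine ⟨hpos, ?_, ?_, ?_, ?_, by simp⟩
  · rw [pow_succ, pow_succ]; linarith [habs.1, habs.2]
  · rw [pow_succ, pow_succ]; linarith [habs.1, habs.2]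
  · rw [pow_succ]; linarith
  · rw [pow_succ, pow_succ]; linarith [habs.1, habs.2]

theorem PD_chain : IsMarkovChain PD := by
  refine ⟨?_, ?_, ?_, ?_, continuous_of_discreteTopology⟩
  · simp [PD, M_one]
  · intro s t
    simp [PD, M_mul, pow_add]
  · intro n x y
    rcases Nat.eq_zero_or_pos n with rfl | hn
    · simp only [PD, pow_zero, M_one]
      rw [Matrix.one_apply]
      split_ifs <;> norm_num
    · obtain ⟨h1, h2, h3, h4, h5, h6⟩ := PD_facts n hn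
      unfold PD
      rw [h6]
      exact M_nonneg _ _ _ le_rfl h1.le (by linarith) h2.le h3 h5 x y
  · intro n x
    exact M_row _ _ _ x

theorem PD_mono : IsMonotoneChain PD := by
  intro n x y hxy A hA
  rcases Nat.eq_zero_or_pos n with rfl | hn
  · simp only [PD, pow_zero]
    exact M_monotone 1 1 1 zero_le_one le_rfl le_rfl (by norm_num) (by norm_num) A hA hxy
  · obtain ⟨h1, h2, h3, h4, h5, h6⟩ := PD_facts n hn
    unfold PD
    rw [h6]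
    exact M_monotone _ _ _ le_rfl h1.le h2.le h3 (by linarith) A hA hxy

theorem PD_rev : IsReversibleChain PD := by
  refine ⟨fun _ => 1 / 5, fun _ => by norm_num, by simp, fun n x y => ?_⟩
  unfold PD
  rw [M_symm]

theorem PD_tv (n : ℕ) (hn : 1 ≤ n) : tv (PD n ⊤) (PD n ⊥) < tv (PD n 0) (PD n 1) := by
  obtain ⟨h1, h2, h3, h4, h5, h6⟩ := PD_facts n hn
  have a1 := tv_top_bot ((3 / 8) ^ n) ((-1 / 8) ^ n) (0 ^ n) h1.le h2.le h3
  have a2 := tv_zero_one ((3 / 8) ^ n) ((-1 / 8) ^ n) (0 ^ n)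
  unfold PD
  linarith

theorem PD_pos (n : ℕ) (hn : 2 ≤ n) (x y : Fin 5) : 0 < PD n x y := by
  obtain ⟨h1, h2, h3, h4, h5, h6⟩ := PD_facts n (by omega)
  obtain ⟨m, rfl⟩ : ∃ m, n = m + 2 := ⟨n - 2, by omega⟩
  unfold PD
  rw [h6]
  refine M_pos _ _ _ h1 le_rfl h1.le h2 h3 ?_ x y
  have h7 : ((3 : ℝ) / 8) ^ m ≤ 1 := pow_le_one₀ (by norm_num) (by norm_num)
  have habs : |(-1 / 8 : ℝ) ^ m| ≤ 1 := by
    rw [abs_pow]
    apply pow_le_one₀ (abs_nonneg _)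
    rw [abs_le']
    constructor <;> norm_num
  rw [abs_le] at habs
  rw [pow_add, pow_add]
  norm_num
  linarith [habs.1, habs.2]

theorem PC_facts (t : ℝ≥0) :
    0 < Real.exp (-(10 * (t : ℝ))) ∧ Real.exp (-(18 * (t : ℝ))) ≤ Real.exp (-(10 * (t : ℝ))) ∧
    Real.exp (-(16 * (t : ℝ))) ≤ Real.exp (-(10 * (t : ℝ))) ∧ Real.exp (-(10 * (t : ℝ))) ≤ 1 ∧
    0 < Real.exp (-(18 * (t : ℝ))) ∧ 0 < Real.exp (-(16 * (t : ℝ))) ∧
    4 * Real.exp (-(16 * (t : ℝ))) ≤ Real.exp (-(10 * (t : ℝ))) + 3 * Real.exp (-(18 * (t : ℝ))) ∧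
    0 ≤ 4 - 9 * Real.exp (-(10 * (t : ℝ))) + 5 * Real.exp (-(18 * (t : ℝ))) := by
  have ht : (0 : ℝ) ≤ t := t.2
  set u := Real.exp (-(2 * (t : ℝ))) with hu
  have hu0 : 0 < u := Real.exp_pos _
  have hu1 : u ≤ 1 := by rw [hu]; apply Real.exp_le_one_iff.2; linarith
  have e1 : Real.exp (-(10 * (t : ℝ))) = u ^ 5 := by
    rw [hu, ← Real.exp_nat_mul]; congr 1; push_cast; ring
  have e2 : Real.exp (-(18 * (t : ℝ))) = u ^ 9 := by
    rw [hu, ← Real.exp_nat_mul]; congr 1; push_cast; ring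
  have e3 : Real.exp (-(16 * (t : ℝ))) = u ^ 8 := by
    rw [hu, ← Real.exp_nat_mul]; congr 1; push_cast; ring
  rw [e1, e2, e3]
  have h5 : 0 < u ^ 5 := by positivity
  refine ⟨h5, pow_le_pow_of_le_one hu0.le hu1 (by norm_num),
    pow_le_pow_of_le_one hu0.le hu1 (by norm_num), pow_le_one₀ hu0.le hu1, by positivity,
    by positivity, ?_, ?_⟩
  · have : 0 ≤ u ^ 5 * ((1 - u) ^ 2 * (1 + 2 * u + 3 * u ^ 2)) := by positivity
    nlinarith [this]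
  · have h : 4 - 9 * u ^ 5 + 5 * u ^ 9 = (1 - u) * (4 * (1 + u + u ^ 2 + u ^ 3 + u ^ 4)
        - 5 * u ^ 5 * (1 + u + u ^ 2 + u ^ 3)) := by ring
    rw [h]
    apply mul_nonneg (by linarith)
    have k1 : u ^ 5 * (1 + u + u ^ 2 + u ^ 3) ≤ 1 + u + u ^ 2 + u ^ 3 := by
      have : u ^ 5 ≤ 1 := pow_le_one₀ hu0.le hu1
      have h3 : 0 ≤ 1 + u + u ^ 2 + u ^ 3 := by positivity
      nlinarith
    have k2 : u ^ 5 * (1 + u + u ^ 2 + u ^ 3) ≤ 4 * u ^ 4 := by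
      have a1 : u ^ 5 ≤ u ^ 4 := pow_le_pow_of_le_one hu0.le hu1 (by norm_num)
      have a2 : u ^ 6 ≤ u ^ 4 := pow_le_pow_of_le_one hu0.le hu1 (by norm_num)
      have a3 : u ^ 7 ≤ u ^ 4 := pow_le_pow_of_le_one hu0.le hu1 (by norm_num)
      have a4 : u ^ 8 ≤ u ^ 4 := pow_le_pow_of_le_one hu0.le hu1 (by norm_num)
      have : u ^ 5 * (1 + u + u ^ 2 + u ^ 3) = u ^ 5 + u ^ 6 + u ^ 7 + u ^ 8 := by ring
      linarith
    linarith

theorem PC_chain : IsMarkovChain PC := by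
  refine ⟨?_, ?_, ?_, ?_, ?_⟩
  · simp [PC, M_one]
  · intro s t
    unfold PC
    rw [M_mul, ← Real.exp_add, ← Real.exp_add, ← Real.exp_add]
    push_cast
    congr 2 <;> ring
  · intro t x y
    obtain ⟨h1, h2, h3, h4, h5, h6, h7, h8⟩ := PC_facts t
    exact M_nonneg _ _ _ h6.le h3 h4 h2 (by linarith) h8 x y
  · intro n x
    exact M_row _ _ _ x
  · apply continuous_matrix
    intro i j
    unfold PC
    fin_cases i <;> fin_cases j <;> simp [M] <;> fun_prop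

theorem PC_mono : IsMonotoneChain PC := by
  intro t x y hxy A hA
  obtain ⟨h1, h2, h3, h4, h5, h6, h7, h8⟩ := PC_facts t
  exact M_monotone _ _ _ h6.le h3 h2 (by linarith) h7 A hA hxy

theorem PC_rev : IsReversibleChain PC := by
  refine ⟨fun _ => 1 / 5, fun _ => by norm_num, by simp, fun n x y => ?_⟩
  unfold PC
  rw [M_symm]

theorem PC_pos (t : ℝ≥0) (ht : 0 < t) (x y : Fin 5) : 0 < PC t x y := by
  obtain ⟨h1, h2, h3, h4, h5, h6, h7, h8⟩ := PC_facts t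
  have ht' : (0 : ℝ) < t := by exact_mod_cast ht
  have h9 : Real.exp (-(18 * (t : ℝ))) < Real.exp (-(10 * (t : ℝ))) := by
    apply Real.exp_lt_exp.2
    linarith
  refine M_pos _ _ _ h1 h6.le h3 h9 (by linarith) ?_ x y
  set u := Real.exp (-(2 * (t : ℝ))) with hu
  have hu0 : 0 < u := Real.exp_pos _
  have hu1 : u < 1 := by rw [hu]; rw [Real.exp_lt_one_iff]; linarith
  have e1 : Real.exp (-(10 * (t : ℝ))) = u ^ 5 := by
    rw [hu, ← Real.exp_nat_mul]; congr 1; push_cast; ring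
  have e2 : Real.exp (-(18 * (t : ℝ))) = u ^ 9 := by
    rw [hu, ← Real.exp_nat_mul]; congr 1; push_cast; ring
  rw [e1, e2]
  have h : 4 - 9 * u ^ 5 + 5 * u ^ 9 = (1 - u) * (4 * (1 + u + u ^ 2 + u ^ 3 + u ^ 4)
      - 5 * u ^ 5 * (1 + u + u ^ 2 + u ^ 3)) := by ring
  rw [h]
  apply mul_pos (by linarith)
  have k1 : u ^ 5 * (1 + u + u ^ 2 + u ^ 3) < 1 + u + u ^ 2 + u ^ 3 := by
    have : u ^ 5 < 1 := pow_lt_one₀ hu0.le hu1 (by norm_num)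
    have h3 : 0 < 1 + u + u ^ 2 + u ^ 3 := by positivity
    nlinarith
  have k2 : u ^ 5 * (1 + u + u ^ 2 + u ^ 3) ≤ 4 * u ^ 4 := by
    have a1 : u ^ 5 ≤ u ^ 4 := pow_le_pow_of_le_one hu0.le hu1.le (by norm_num)
    have a2 : u ^ 6 ≤ u ^ 4 := pow_le_pow_of_le_one hu0.le hu1.le (by norm_num)
    have a3 : u ^ 7 ≤ u ^ 4 := pow_le_pow_of_le_one hu0.le hu1.le (by norm_num)
    have a4 : u ^ 8 ≤ u ^ 4 := pow_le_pow_of_le_one hu0.le hu1.le (by norm_num)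
    have : u ^ 5 * (1 + u + u ^ 2 + u ^ 3) = u ^ 5 + u ^ 6 + u ^ 7 + u ^ 8 := by ring
    linarith
  linarith

theorem PC_tv (t : ℝ≥0) (ht : 0 < t) : tv (PC t ⊤) (PC t ⊥) < tv (PC t 0) (PC t 1) := by
  obtain ⟨h1, h2, h3, h4, h5, h6, h7, h8⟩ := PC_facts t
  have h9 : Real.exp (-(18 * (t : ℝ))) < Real.exp (-(10 * (t : ℝ))) := by
    apply Real.exp_lt_exp.2
    have : (0 : ℝ) < t := by exact_mod_cast ht
    linarith
  have a1 := tv_top_bot _ _ (Real.exp (-(16 * (t : ℝ)))) h1.le h2 (by linarith)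
  have a2 := tv_zero_one (Real.exp (-(10 * (t : ℝ)))) (Real.exp (-(18 * (t : ℝ))))
    (Real.exp (-(16 * (t : ℝ))))
  unfold PC
  linarith

end Pool.Agent.Lead.ExtremalPairs
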